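import Mathlib

/-!
Eliminable sets and connected sets.
-/

namespace Pool.Agent.H.MP_6036e3_co

open Finset

section basics

set_option linter.unusedSectionVars false

variable {V : Type*} [DecidableEq V] (G : SimpleGraph V)

/-- `x` and `y` are distinct and nonadjacent -/
def Pp (x y : V) : Prop := x ≠ y ∧ ¬ G.Adj x y

/-- `u` is distinct from, and nonadjacent to, all vertices of `X` -/
def PS (u : V) (X : Finset V) : Prop := ∀ x ∈ X, Pp G u x

/-- connected nonempty finite set of vertices -/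
def Cn (W : Finset V) : Prop :=
  W.Nonempty ∧ ∀ S ⊆ W, S.Nonempty → S ≠ W → ∃ a ∈ S, ∃ b ∈ W, b ∉ S ∧ G.Adj a b

/-- eliminable sets (complements of PSD forcing sets) -/
inductive El : Finset V → Prop
  | empty : El ∅
  | force {A : Finset V} {w u : V} : w ∈ A → G.Adj u w → PS G u (A.erase w) → El (A.erase w) → El A
  | union {A B : Finset V} : (∀ a ∈ A, ∀ b ∈ B, Pp G a b) → El A → El B → El (A ∪ B)

variable {G}

lemma Pp.symm {x y : V} (h : Pp G x y) : Pp G y x := ⟨h.1.symm, fun h' => h.2 h'.symm⟩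

lemma Pp.ne {x y : V} (h : Pp G x y) : x ≠ y := h.1

lemma Pp.nadj {x y : V} (h : Pp G x y) : ¬ G.Adj x y := h.2

/-- not perpendicular means adjacent or equal -/
lemma not_Pp {x y : V} (h : ¬ Pp G x y) (hne : x ≠ y) : G.Adj x y := by
  by_contra h'
  exact h ⟨hne, h'⟩

lemma Pp_irrefl {x : V} : ¬ Pp G x x := fun h => h.1 rfl

lemma PS.mono {u : V} {X Y : Finset V} (h : PS G u Y) (hXY : X ⊆ Y) : PS G u X :=
  fun x hx => h x (hXY hx)

lemma PS.notMem {u : V} {X : Finset V} (h : PS G u X) : u ∉ X := fun hu => (h u hu).1 rfl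

lemma PS.insert {u w : V} {X : Finset V} (h : PS G u X) (hw : Pp G u w) : PS G u (insert w X) := by
  intro x hx
  rcases Finset.mem_insert.1 hx with rfl | hx
  · exact hw
  · exact h x hx

lemma PS.union {u : V} {X Y : Finset V} (h : PS G u X) (h' : PS G u Y) : PS G u (X ∪ Y) := by
  intro x hx
  rcases Finset.mem_union.1 hx with hx | hx
  · exact h x hx
  · exact h' x hx

lemma not_PS {u : V} {X : Finset V} (h : ¬ PS G u X) (hu : u ∉ X) : ∃ x ∈ X, G.Adj u x := by
  unfold PS at h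
  push Not at h
  obtain ⟨x, hx, h⟩ := h
  exact ⟨x, hx, not_Pp h (fun h' => hu (h' ▸ hx))⟩

lemma El.mono {A : Finset V} (h : El G A) : ∀ {B : Finset V}, B ⊆ A → El G B := by
  induction h with
  | empty => intro B hB; rw [Finset.subset_empty.1 hB]; exact El.empty
  | @force A w u hw hadj hps _ ih =>
    intro B hB
    by_cases hwB : w ∈ B
    · exact El.force hwB hadj (hps.mono (Finset.erase_subset_erase w hB))
        (ih (Finset.erase_subset_erase w hB))
    · exact ih (fun x hx => Finset.mem_erase.2 ⟨fun h => hwB (h ▸ hx), hB hx⟩)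
  | @union A A' hAA' _ _ ih ih' =>
    intro B hB
    have : B = (B ∩ A) ∪ (B ∩ A') := by
      rw [← Finset.inter_union_distrib_left, Finset.inter_eq_left.2 hB]
    rw [this]
    exact El.union (fun a ha b hb => hAA' a (Finset.mem_inter.1 ha).2 b (Finset.mem_inter.1 hb).2)
      (ih Finset.inter_subset_right) (ih' Finset.inter_subset_right)

lemma El.ins {A : Finset V} {w u : V} (h : El G A) (hadj : G.Adj u w) (hps : PS G u A) :
    El G (insert w A) := by
  by_cases hw : w ∈ A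
  · rwa [Finset.insert_eq_of_mem hw]
  · refine El.force (Finset.mem_insert_self w A) hadj ?_ ?_
    · rwa [Finset.erase_insert hw]
    · rwa [Finset.erase_insert hw]

lemma El.insPerp {A : Finset V} {w : V} (h : El G A) (hw : El G {w}) (hps : PS G w A) :
    El G (insert w A) := by
  rw [Finset.insert_eq]
  refine El.union ?_ hw h
  intro a ha b hb
  rw [Finset.mem_singleton.1 ha]
  exact hps b hb

lemma El.singleton {w u : V} (h : G.Adj u w) : El G {w} :=
  El.ins (A := ∅) El.empty h (fun x hx => absurd hx (Finset.notMem_empty x))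

/-! ### Connected sets -/

lemma Cn.sing (x : V) : Cn G {x} := by
  refine ⟨⟨x, Finset.mem_singleton_self x⟩, ?_⟩
  intro S hS hne hSne
  exact absurd (Finset.Nonempty.subset_singleton_iff hne |>.1 hS) hSne

lemma Cn.ins {W : Finset V} (hW : Cn G W) {a z : V} (ha : a ∈ W) (haz : G.Adj a z) :
    Cn G (insert z W) := by
  by_cases hz : z ∈ W
  · rwa [Finset.insert_eq_of_mem hz]
  refine ⟨⟨z, Finset.mem_insert_self z W⟩, ?_⟩
  intro S hS hne hSne
  by_cases h1 : (S ∩ W).Nonempty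
  · by_cases h2 : S ∩ W = W
    · have hWS : W ⊆ S := Finset.inter_eq_right.1 h2
      have hzS : z ∉ S := by
        intro hzS
        apply hSne
        exact Finset.Subset.antisymm hS (Finset.insert_subset hzS hWS)
      exact ⟨a, hWS ha, z, Finset.mem_insert_self z W, hzS, haz⟩
    · obtain ⟨x, hx, y, hy, hyS, hxy⟩ := hW.2 _ Finset.inter_subset_right h1 h2
      refine ⟨x, (Finset.mem_inter.1 hx).1, y, Finset.mem_insert_of_mem hy, ?_, hxy⟩
      intro h
      exact hyS (Finset.mem_inter.2 ⟨h, hy⟩)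
  · have hSz : ∀ x ∈ S, x = z := by
      intro x hx
      rcases Finset.mem_insert.1 (hS hx) with h | h
      · exact h
      · exact absurd ⟨x, Finset.mem_inter.2 ⟨hx, h⟩⟩ h1
    obtain ⟨x, hx⟩ := hne
    have hzS : z ∈ S := by rw [← hSz x hx]; exact hx
    refine ⟨z, hzS, a, Finset.mem_insert_of_mem ha, ?_, haz.symm⟩
    intro haS
    exact h1 ⟨a, Finset.mem_inter.2 ⟨haS, ha⟩⟩

/-- a connected set with at least two elements has no isolated vertices -/
lemma Cn.nbr {W : Finset V} (hW : Cn G W) (h2 : 2 ≤ W.card) {w : V} (hw : w ∈ W) :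
    ∃ y ∈ W, y ≠ w ∧ G.Adj w y := by
  obtain ⟨a, ha, b, hb, hbS, hab⟩ := hW.2 {w} (Finset.singleton_subset_iff.2 hw)
    ⟨w, Finset.mem_singleton_self w⟩ (by
      intro h
      rw [← h, Finset.card_singleton] at h2
      omega)
  rw [Finset.mem_singleton] at ha hbS
  exact ⟨b, hb, hbS, ha ▸ hab⟩

/-- the component of a vertex -/
lemma exists_comp [Fintype V] {W : Finset V} {w : V} (hw : w ∈ W) :
    ∃ K ⊆ W, w ∈ K ∧ Cn G K ∧ ∀ a ∈ K, ∀ b ∈ W, b ∉ K → ¬ G.Adj a b := by
  classical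
  let 𝒮 : Finset (Finset V) := W.powerset.filter fun K => w ∈ K ∧ Cn G K
  have hne : 𝒮.Nonempty := ⟨{w}, by
    simp only [𝒮, Finset.mem_filter, Finset.mem_powerset, Finset.singleton_subset_iff]
    exact ⟨hw, Finset.mem_singleton_self w, Cn.sing w⟩⟩
  obtain ⟨K, hK, hmax⟩ := Finset.exists_max_image 𝒮 Finset.card hne
  simp only [𝒮, Finset.mem_filter, Finset.mem_powerset] at hK hmax
  refine ⟨K, hK.1, hK.2.1, hK.2.2, ?_⟩
  intro a ha b hb hbK hab
  have h1 := hmax (insert b K) ⟨Finset.insert_subset hb hK.1, Finset.mem_insert_of_mem hK.2.1,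
    hK.2.2.ins ha hab⟩
  rw [Finset.card_insert_of_notMem hbK] at h1
  omega

/-- a connected set meeting a closed set lies inside it -/
lemma Cn.sub {S W K : Finset V} (hS : Cn G S) (hSW : S ⊆ W) {x : V} (hxS : x ∈ S) (hxK : x ∈ K)
    (hK : ∀ a ∈ K, ∀ b ∈ W, b ∉ K → ¬ G.Adj a b) : S ⊆ K := by
  by_contra hcon
  obtain ⟨a, ha, b, hb, hbS, hab⟩ := hS.2 (S ∩ K) Finset.inter_subset_left
    ⟨x, Finset.mem_inter.2 ⟨hxS, hxK⟩⟩ (fun h => hcon (Finset.inter_eq_left.1 h))
  refine hK a (Finset.mem_inter.1 ha).2 b (hSW hb) ?_ hab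
  intro h
  exact hbS (Finset.mem_inter.2 ⟨hb, h⟩)

/-- a non-cut vertex -/
lemma Cn.noncut [Fintype V] {W : Finset V} (hW : Cn G W) (h2 : 2 ≤ W.card) :
    ∃ w ∈ W, Cn G (W.erase w) := by
  classical
  obtain ⟨w₀, hw₀⟩ := hW.1
  let 𝒮 : Finset (Finset V) := W.powerset.filter fun K => K ≠ W ∧ Cn G K
  have hne : 𝒮.Nonempty := ⟨{w₀}, by
    simp only [𝒮, Finset.mem_filter, Finset.mem_powerset, Finset.singleton_subset_iff]
    refine ⟨hw₀, ?_, Cn.sing w₀⟩
    intro h
    rw [← h, Finset.card_singleton] at h2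
    omega⟩
  obtain ⟨K, hK, hmax⟩ := Finset.exists_max_image 𝒮 Finset.card hne
  simp only [𝒮, Finset.mem_filter, Finset.mem_powerset] at hK hmax
  obtain ⟨a, ha, b, hb, hbK, hab⟩ := hW.2 K hK.1 hK.2.2.1 hK.2.1
  have h1 : insert b K = W := by
    by_contra hcon
    have := hmax (insert b K) ⟨Finset.insert_subset hb hK.1, hcon, hK.2.2.ins ha hab⟩
    rw [Finset.card_insert_of_notMem hbK] at this
    omega
  refine ⟨b, hb, ?_⟩
  rw [← h1, Finset.erase_insert hbK]
  exact hK.2.2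

/-- removing a component of `X \ w` from a connected set `X` -/
lemma Cn.removeComp {X D : Finset V} (hX : Cn G X) {w : V} (hw : w ∈ X) (hwD : w ∉ D)
    (hD : ∀ a ∈ D, ∀ b ∈ X, b ≠ w → b ∉ D → ¬ G.Adj a b) : Cn G (X \ D) := by
  classical
  have hwXD : w ∈ X \ D := Finset.mem_sdiff.2 ⟨hw, hwD⟩
  refine ⟨⟨w, hwXD⟩, ?_⟩
  intro S hS hne hSne
  by_cases hwS : w ∈ S
  · -- use the complement
    obtain ⟨a, ha, b, hb, hbT, hab⟩ := hX.2 ((X \ D) \ S)
      (Finset.sdiff_subset.trans Finset.sdiff_subset) (by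
        by_contra h
        rw [Finset.not_nonempty_iff_eq_empty, Finset.sdiff_eq_empty_iff_subset] at h
        exact hSne (Finset.Subset.antisymm hS h)) (by
        intro h
        have := hw
        rw [← h] at this
        exact (Finset.mem_sdiff.1 this).2 hwS)
    obtain ⟨ha1, ha2⟩ := Finset.mem_sdiff.1 ha
    obtain ⟨ha3, ha4⟩ := Finset.mem_sdiff.1 ha1
    have hbD : b ∉ D := by
      intro hbD
      refine hD b hbD a ha3 ?_ ha4 hab.symm
      rintro rfl
      exact ha2 hwS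
    have hbS : b ∈ S := by
      by_contra hbS
      exact hbT (Finset.mem_sdiff.2 ⟨Finset.mem_sdiff.2 ⟨hb, hbD⟩, hbS⟩)
    exact ⟨b, hbS, a, ha1, ha2, hab.symm⟩
  · obtain ⟨a, ha, b, hb, hbS, hab⟩ := hX.2 S (hS.trans Finset.sdiff_subset) hne (by
      intro h
      rw [h] at hwS
      exact hwS hw)
    refine ⟨a, ha, b, ?_, hbS, hab⟩
    refine Finset.mem_sdiff.2 ⟨hb, ?_⟩
    intro hbD
    obtain ⟨ha3, ha4⟩ := Finset.mem_sdiff.1 (hS ha)
    exact hD b hbD a ha3 (fun h => hwS (h ▸ ha)) ha4 hab.symm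

end basics

end Pool.Agent.H.MP_6036e3_co
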