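import Pool.Agent.H.MP_6036e3_co.Transfer
import Pool.Agent.H.MP_6036e3_co.Friend

/-!
In a graph with the standing hypotheses every vertex has exactly one non-neighbour.
-/

namespace Pool.Agent.H.MP_6036e3_co

open Finset

section main

set_option linter.unusedSectionVars false

variable {V : Type*} [Fintype V] [DecidableEq V] {G : SimpleGraph V}

namespace Ctx

variable (h : Ctx G)

include h

lemma exPerp (x : V) : ∃ y, Pp G x y := by
  obtain ⟨u, hu⟩ := h.nb x
  obtain ⟨z, -, hz⟩ := h.tw u x hu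
  exact ⟨z, hz.symm⟩

omit h in
lemma Cn_tri {x x' z : V} (h1 : G.Adj z x) (h2 : G.Adj z x') : Cn G {z, x, x'} := by
  have h3 : Cn G (insert x' (insert x {z})) :=
    ((Cn.sing z).ins (Finset.mem_singleton_self z) h1).ins
      (Finset.mem_insert_of_mem (Finset.mem_singleton_self z)) h2
  have h4 : (insert x' (insert x {z}) : Finset V) = {z, x, x'} := by
    ext y
    simp only [Finset.mem_insert, Finset.mem_singleton]
    tauto
  rwa [h4] at h3

omit h in
lemma Cn_pair {x y : V} (hxy : G.Adj x y) : Cn G {x, y} :=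
  (Cn.sing y).ins (Finset.mem_singleton_self y) hxy.symm

omit h in
lemma PS_pair {u x y : V} (hx : Pp G u x) (hy : Pp G u y) : PS G u {x, y} := by
  intro z hz
  rcases Finset.mem_insert.1 hz with rfl | hz
  · exact hx
  · rw [Finset.mem_singleton.1 hz]
    exact hy

lemma join_aux {S : Finset V} {z : V} (hz : z ∉ S)
    (hj : ∀ a ∈ S, ∀ b, b ∉ S → G.Adj a b) {u x x' : V} (hu : u ∈ S) (hx : Pp G u x)
    (hx' : Pp G u x') : x = x' := by
  by_contra hne
  have hxS : x ∈ S := by
    by_contra h'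
    exact hx.2 (hj u hu x h')
  have hxS' : x' ∈ S := by
    by_contra h'
    exact hx'.2 (hj u hu x' h')
  have hE : El G {z, x, x'} := El.ins (h.El_pair x x') (hj u hu z hz) (PS_pair hx hx')
  have hC : Cn G {z, x, x'} := Cn_tri (hj x hxS z hz).symm (hj x' hxS' z hz).symm
  obtain ⟨t, htx, ht⟩ := h.pr _ hE hC x (by simp)
  have htz : Pp G t z := ht z (Finset.mem_erase.2 ⟨fun h' => hz (h' ▸ hxS), by simp⟩)
  have htx' : Pp G t x' := ht x' (Finset.mem_erase.2 ⟨fun h' => hne h'.symm, by simp⟩)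
  by_cases htS : t ∈ S
  · exact htz.2 (hj t htS z hz)
  · exact htx'.2 (hj x' hxS' t htS).symm

lemma join_uniq {S : Finset V} {s : V} (hs : s ∈ S) {z : V} (hz : z ∉ S)
    (hj : ∀ a ∈ S, ∀ b, b ∉ S → G.Adj a b) {u x x' : V} (hx : Pp G u x)
    (hx' : Pp G u x') : x = x' := by
  by_cases hu : u ∈ S
  · exact h.join_aux hz hj hu hx hx'
  · refine h.join_aux (S := Finset.univ \ S) (z := s) (by simp [hs]) ?_ (u := u) (by simp [hu]) hx hx'
    intro a ha b hb
    simp only [Finset.mem_sdiff, Finset.mem_univ, true_and, not_not] at ha hb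
    exact (hj b hb a ha).symm

/-- not a join -/
def NJ (G : SimpleGraph V) : Prop :=
  ∀ (S : Finset V) (s z : V), s ∈ S → z ∉ S → ∃ a ∈ S, ∃ b, b ∉ S ∧ ¬ G.Adj a b

/-- (a) -/
lemma common_of_perp (hN : NJ G) {b c : V} (hbc : Pp G b c) : ∃ d, Pp G d b ∧ Pp G d c := by
  by_contra hcon
  push Not at hcon
  have key : ∀ b c : V, Pp G b c → (∀ d, Pp G d b → ¬ Pp G d c) → ∀ x, Pp G x b → x = c := by
    intro b c hbc hcon x hx
    by_contra hxc
    have hadj : G.Adj x c := not_Pp (hcon x hx) hxc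
    obtain ⟨t, -, ht, htb⟩ := h.R (h.El_pair x c) (Cn_pair hadj)
      (by rw [Finset.card_pair hxc]) (w := x) (by simp) (u := b)
      (PS_pair hx.symm hbc)
    exact hcon t htb (ht c (Finset.mem_erase.2 ⟨fun h' => hxc h'.symm, by simp⟩))
  have k1 := key b c hbc hcon
  have k2 := key c b hbc.symm (fun d hd hd' => hcon d hd' hd)
  -- `b` has a neighbour, which is not `b` or `c`
  obtain ⟨v, hv⟩ := h.nb b
  have hvS : v ∉ ({b, c} : Finset V) := by
    intro h'
    rcases Finset.mem_insert.1 h' with rfl | h'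
    · exact G.irrefl hv
    · rw [Finset.mem_singleton.1 h'] at hv
      exact hbc.2 hv.symm
  obtain ⟨a, ha, d, hd, had⟩ := hN {b, c} b v (by simp) hvS
  simp only [Finset.mem_insert, Finset.mem_singleton, not_or] at ha hd
  rcases ha with rfl | rfl
  · exact hd.2 (k1 d ⟨hd.1, fun h' => had h'.symm⟩)
  · exact hd.1 (k2 d ⟨hd.2, fun h' => had h'.symm⟩)

/-- the component of `X` in the non-neighbourhood of `u` again satisfies the hypotheses -/
lemma sub_ctx {X : Finset V} (hC : Cn G X) (h3 : 3 ≤ X.card) {u : V}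
    (hu : PS G u X) : ∃ C : Finset V, X ⊆ C ∧ (∀ x ∈ C, Pp G u x) ∧
      Ctx (G.comap (Subtype.val : {x // x ∈ C} → V)) ∧
      (∀ t, Pp G t u → ∀ x ∈ C, G.Adj t x → t ∈ C) := by
  classical
  obtain ⟨x₀, hx₀⟩ := hC.1
  obtain ⟨C, hCW, hxC, hCC, hcl⟩ := exists_comp (G := G)
    (W := Finset.univ.filter fun v => Pp G u v) (w := x₀)
    (Finset.mem_filter.2 ⟨Finset.mem_univ _, hu x₀ hx₀⟩)
  have hXC : X ⊆ C := by
    refine hC.sub ?_ hx₀ hxC hcl
    intro x hx
    exact Finset.mem_filter.2 ⟨Finset.mem_univ _, hu x hx⟩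
  have hCu : ∀ x ∈ C, Pp G u x := fun x hx => (Finset.mem_filter.1 (hCW hx)).2
  have hcl' : ∀ t, Pp G t u → ∀ x ∈ C, G.Adj t x → t ∈ C := by
    intro t ht x hx htx
    by_contra h'
    exact hcl x hx t (Finset.mem_filter.2 ⟨Finset.mem_univ _, ht.symm⟩) h' htx.symm
  have hinj : Function.Injective (Subtype.val : {x // x ∈ C} → V) := Subtype.val_injective
  have himg : (Finset.univ : Finset {x // x ∈ C}).image Subtype.val = C := by
    ext x
    simp
  have hconn : Cn (G.comap (Subtype.val : {x // x ∈ C} → V)) Finset.univ := by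
    apply Cn_of_comap hinj
    rw [himg]
    exact hCC
  have hcard : 3 ≤ Fintype.card {x // x ∈ C} := by
    rw [Fintype.card_coe]
    exact h3.trans (Finset.card_le_card hXC)
  refine ⟨C, hXC, hCu, ⟨hconn, by omega, ?_, ?_⟩, hcl'⟩
  · intro x y hxy
    have hadj : G.Adj (x : V) y := hxy
    obtain ⟨t, htx, hty, htu⟩ := h.R (h.El_pair (x : V) y) (Cn_pair hadj)
      (by rw [Finset.card_pair hadj.ne]) (w := (x : V)) (by simp) (u := u)
      (PS_pair (hCu x x.2) (hCu y y.2))
    have htC : t ∈ C := hcl' t htu x x.2 htx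
    refine ⟨⟨t, htC⟩, htx, (Pp_comap hinj).2 ?_⟩
    exact hty y (Finset.mem_erase.2 ⟨hadj.ne.symm, by simp⟩)
  · intro W hEW hCW w hw
    by_cases hW2 : 2 ≤ W.card
    · have hcard' : (W.image Subtype.val).card = W.card := Finset.card_image_of_injective _ hinj
      obtain ⟨t, htw, ht, htu⟩ := h.R (El_comap hinj hEW) (Cn_comap hinj hCW)
        (by rw [hcard']; exact hW2) (w := (w : V)) (Finset.mem_image_of_mem _ hw) (u := u) (by
          intro x hx
          obtain ⟨y, hy, rfl⟩ := Finset.mem_image.1 hx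
          exact hCu y y.2)
      have htC : t ∈ C := hcl' t htu w w.2 htw
      refine ⟨⟨t, htC⟩, htw, (PS_comap hinj).2 ?_⟩
      rw [Finset.image_erase hinj]
      exact ht
    · have hW1 : W.erase w = ∅ := by
        rw [← Finset.card_eq_zero, Finset.card_erase_of_mem hw]
        omega
      rw [hW1]
      obtain ⟨y, -, -, hy⟩ := hconn.nbr (by rw [Finset.card_univ]; omega) (Finset.mem_univ w)
      exact ⟨y, hy.symm, fun x hx => absurd hx (Finset.notMem_empty x)⟩

end Ctx

/-- the non-join case is impossible -/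
lemma Ctx.nonjoin_false (h : Ctx G) (hN : Ctx.NJ G)
    (hb : ∀ (X : Finset V) (u : V), El G X → Cn G X → PS G u X → X.card ≤ 2) : False := by
  classical
  -- (c)
  have hc : ∀ W : Finset V, Ctx.Full G W → W.card ≤ 3 := by
    intro W hW
    by_contra hcon
    push Not at hcon
    obtain ⟨w, hw, hCw⟩ := hW.1.noncut (by omega)
    obtain ⟨u, -, hu⟩ := h.pr W hW.2.1 hW.1 w hw
    have := hb _ u (hW.2.1.mono (Finset.erase_subset w W)) hCw hu
    rw [Finset.card_erase_of_mem hw] at this
    omega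
  -- (d) existence
  have hd : ∀ x y, G.Adj x y → ∃ u, Pp G u x ∧ Pp G u y := by
    intro x y hxy
    by_contra hcon
    push Not at hcon
    have hF : Ctx.Full G {x, y} := by
      refine ⟨Ctx.Cn_pair hxy, h.El_pair x y, ?_⟩
      intro u hu
      exact hcon u (hu x (by simp)) (hu y (by simp))
    have he : ({x, y} : Finset V).erase x = {y} := by
      ext z
      simp only [Finset.mem_erase, Finset.mem_insert, Finset.mem_singleton]
      constructor
      · rintro ⟨h1, h2 | h2⟩
        · exact absurd h2 h1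
        · exact h2
      · rintro rfl
        exact ⟨hxy.ne.symm, Or.inr rfl⟩
    have huniq : ∀ a b, Pp G a y → Pp G b y → a = b := by
      intro a b ha hb'
      have ha' : PS G a (({x, y} : Finset V).erase x) := by
        rw [he]
        intro z hz
        rw [Finset.mem_singleton.1 hz]
        exact ha
      have hb'' : PS G b (({x, y} : Finset V).erase x) := by
        rw [he]
        intro z hz
        rw [Finset.mem_singleton.1 hz]
        exact hb'
      have h2 : 2 ≤ ({x, y} : Finset V).card := by rw [Finset.card_pair hxy.ne]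
      exact h.uniq hF (w := x) (by simp) ha' (h.adj_of hF h2 (by simp) ha') hb''
        (h.adj_of hF h2 (by simp) hb'')
    obtain ⟨p, hp⟩ := h.exPerp y
    obtain ⟨d, hd1, hd2⟩ := h.common_of_perp hN hp
    exact hd2.1 (huniq d p hd1 hp.symm)
  -- full triples
  have hT : ∀ x y z, El G {z, x, y} → Cn G {z, x, y} → x ≠ y → z ≠ x → z ≠ y →
      ∀ a b, Pp G a x → Pp G a y → Pp G b x → Pp G b y → a = b := by
    intro x y z hE hC hxy hzx hzy a b hax hay hbx hby
    obtain ⟨W, hXW, hW⟩ := h.exists_full hE hC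
    have hcard : ({z, x, y} : Finset V).card = 3 := by
      rw [Finset.card_insert_of_notMem (by simp [hzx, hzy]), Finset.card_pair hxy]
    have hWe : ({z, x, y} : Finset V) = W :=
      Finset.eq_of_subset_of_card_le hXW (by rw [hcard]; exact hc W hW)
    rw [← hWe] at hW
    have he : ({z, x, y} : Finset V).erase z = {x, y} := by
      rw [Finset.erase_insert (by simp [hzx, hzy])]
    have ha' : PS G a (({z, x, y} : Finset V).erase z) := by
      rw [he]
      exact Ctx.PS_pair hax hay
    have hb' : PS G b (({z, x, y} : Finset V).erase z) := by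
      rw [he]
      exact Ctx.PS_pair hbx hby
    have h2 : 2 ≤ ({z, x, y} : Finset V).card := by rw [hcard]; omega
    exact h.uniq hW (w := z) (by simp) ha' (h.adj_of hW h2 (by simp) ha') hb'
      (h.adj_of hW h2 (by simp) hb')
  -- (d) uniqueness
  have hd' : ∀ x y, G.Adj x y → ∀ a b, Pp G a x → Pp G a y → Pp G b x → Pp G b y → a = b := by
    intro x y hxy
    obtain ⟨u, hux, huy⟩ := hd x y hxy
    obtain ⟨W, hXW, hW⟩ := h.exists_full (h.El_pair x y) (Ctx.Cn_pair hxy)
    have hne : ({x, y} : Finset V) ≠ W := by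
      rintro h'
      apply hW.2.2 u
      rw [← h']
      exact Ctx.PS_pair hux huy
    obtain ⟨z, hzW, hz⟩ := Finset.exists_of_ssubset (Finset.ssubset_iff_subset_ne.2 ⟨hXW, hne⟩)
    simp only [Finset.mem_insert, Finset.mem_singleton, not_or] at hz
    have hcard : ({z, x, y} : Finset V).card = 3 := by
      rw [Finset.card_insert_of_notMem (by simp [hz.1, hz.2]), Finset.card_pair hxy.ne]
    have hsub : ({z, x, y} : Finset V) ⊆ W := Finset.insert_subset hzW hXW
    have hWe : ({z, x, y} : Finset V) = W :=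
      Finset.eq_of_subset_of_card_le hsub (by rw [hcard]; exact hc W hW)
    rw [← hWe] at hW
    exact hT x y z hW.2.1 hW.1 hxy.ne hz.1 hz.2
  -- (e) uniqueness
  have he' : ∀ b c, Pp G b c → ∀ p p', Pp G p b → Pp G p c → Pp G p' b → Pp G p' c → p = p' := by
    intro b c hbc p p' hpb hpc hpb' hpc'
    by_contra hne
    by_cases hpp : Pp G p p'
    · obtain ⟨z, hz⟩ := h.nb b
      -- `z` is perpendicular to at most one of `c, p, p'`
      have key : ∀ q q', Pp G b q → Pp G b q' → q ≠ q' → Pp G z q → ¬ Pp G z q' := by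
        intro q q' hq hq' hqq hzq hzq'
        exact hqq (hd' z b hz q q' hzq.symm hq.symm hzq'.symm hq'.symm)
      have hadj : ∀ q, Pp G b q → ¬ Pp G z q → G.Adj z q := by
        intro q hq hzq
        refine not_Pp hzq ?_
        rintro rfl
        exact hq.2 hz.symm
      have fin : ∀ q q' r, Pp G b q → Pp G b q' → Pp G q q' → Pp G r q → Pp G r q' → r ≠ b →
          G.Adj z q → G.Adj z q' → False := by
        intro q q' r hq hq' hqq hrq hrq' hrb hzq hzq'
        have hE : El G {z, q, q'} := El.ins (h.El_pair q q') hz.symm (Ctx.PS_pair hq hq')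
        exact hrb (hT q q' z hE (Ctx.Cn_tri hzq hzq') hqq.1 hzq.ne hzq'.ne r b hrq hrq' hq hq')
      by_cases h1 : Pp G z c
      · have h2 := hadj p hpb.symm (key c p hbc hpb.symm hpc.1.symm h1)
        have h3 := hadj p' hpb'.symm (key c p' hbc hpb'.symm hpc'.1.symm h1)
        exact fin p p' c hpb.symm hpb'.symm hpp hpc.symm hpc'.symm hbc.1.symm h2 h3
      · by_cases h2 : Pp G z p
        · have h3 := hadj p' hpb'.symm (key p p' hpb.symm hpb'.symm hne h2)
          exact fin c p' p hbc hpb'.symm hpc'.symm hpc hpp hpb.1 (hadj c hbc h1) h3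
        · exact fin c p p' hbc hpb.symm hpc.symm hpc' hpp.symm hpb'.1 (hadj c hbc h1)
            (hadj p hpb.symm h2)
    · have hadj := not_Pp hpp hne
      exact hbc.1 (hd' p p' hadj b c hpb.symm hpb'.symm hpc.symm hpc'.symm)
  -- the complement is a friendship graph
  have hfr : ∀ ⦃v w : V⦄, v ≠ w → Fintype.card (Gᶜ.commonNeighbors v w) = 1 := by
    intro v w hvw
    have hiff : ∀ d, d ∈ Gᶜ.commonNeighbors v w ↔ Pp G d v ∧ Pp G d w := by
      intro d
      rw [SimpleGraph.mem_commonNeighbors, SimpleGraph.compl_adj, SimpleGraph.compl_adj]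
      unfold Pp
      constructor
      · rintro ⟨⟨h1, h2⟩, h3, h4⟩
        exact ⟨⟨h1.symm, fun h' => h2 h'.symm⟩, h3.symm, fun h' => h4 h'.symm⟩
      · rintro ⟨⟨h1, h2⟩, h3, h4⟩
        exact ⟨⟨h1.symm, fun h' => h2 h'.symm⟩, h3.symm, fun h' => h4 h'.symm⟩
    rw [Fintype.card_eq_one_iff]
    by_cases hadj : G.Adj v w
    · obtain ⟨u, hu, hu'⟩ := hd v w hadj
      refine ⟨⟨u, (hiff u).2 ⟨hu, hu'⟩⟩, ?_⟩
      rintro ⟨y, hy⟩
      obtain ⟨hy1, hy2⟩ := (hiff y).1 hy
      exact Subtype.ext (hd' v w hadj y u hy1 hy2 hu hu')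
    · obtain ⟨u, hu, hu'⟩ := h.common_of_perp hN ⟨hvw, hadj⟩
      refine ⟨⟨u, (hiff u).2 ⟨hu, hu'⟩⟩, ?_⟩
      rintro ⟨y, hy⟩
      obtain ⟨hy1, hy2⟩ := (hiff y).1 hy
      exact Subtype.ext (he' v w ⟨hvw, hadj⟩ y u hy1 hy2 hu hu')
  have hne : Nonempty V := Fintype.card_pos_iff.1 (by have := h.two; omega)
  obtain ⟨v, hv⟩ := FT.friendship_theorem (G := Gᶜ) (by
    unfold FT.Friendship
    convert hfr)
  obtain ⟨z, hz⟩ := h.nb v
  exact (hv z hz.ne.symm).2 hz.symm

end main

universe u

/-- In a graph with the standing hypotheses every vertex has at most one non-neighbour. -/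
theorem Ctx.unique_perp : ∀ (n : ℕ) (V : Type u) [Fintype V] [DecidableEq V]
    (G : SimpleGraph V), Fintype.card V = n → Ctx G →
    ∀ x y y', Pp G x y → Pp G x y' → y = y' := by
  intro n
  induction n using Nat.strong_induction_on with
  | _ n ih =>
    intro V _ _ G hn h x y y' hy hy'
    by_cases hN : Ctx.NJ G
    · exfalso
      refine h.nonjoin_false hN ?_
      intro X u hE hC hu
      by_contra hcon
      push Not at hcon
      obtain ⟨C, hXC, hCu, hctx, hcl⟩ := h.sub_ctx hC (by omega) hu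
      have hlt : Fintype.card {x // x ∈ C} < n := by
        rw [Fintype.card_coe, ← hn, ← Finset.card_univ]
        apply Finset.card_lt_card
        rw [Finset.ssubset_univ_iff]
        intro h'
        exact Pp_irrefl (hCu u (by rw [h']; exact Finset.mem_univ u))
      have hun := ih _ hlt {x // x ∈ C} (G.comap Subtype.val) rfl hctx
      obtain ⟨w, hw⟩ := hC.1
      obtain ⟨t, htw, ht, htu⟩ := h.R hE hC (by omega) hw hu
      have htC : t ∈ C := hcl t htu w (hXC hw) htw
      have h1 : 1 < (X.erase w).card := by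
        rw [Finset.card_erase_of_mem hw]
        omega
      obtain ⟨a, ha, b, hb, hab⟩ := Finset.one_lt_card.1 h1
      have haC : a ∈ C := hXC (Finset.mem_of_mem_erase ha)
      have hbC : b ∈ C := hXC (Finset.mem_of_mem_erase hb)
      have := hun ⟨t, htC⟩ ⟨a, haC⟩ ⟨b, hbC⟩ ((Pp_comap Subtype.val_injective).2 (ht a ha))
        ((Pp_comap Subtype.val_injective).2 (ht b hb))
      exact hab (congrArg Subtype.val this)
    · unfold Ctx.NJ at hN
      push Not at hN
      obtain ⟨S, s, z, hs, hz, hj⟩ := hN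
      exact h.join_uniq hs hz hj hy hy'

end Pool.Agent.H.MP_6036e3_co
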