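import Pool.Agent.H.MP_6036e3_co.Theory

/-!
The residue lemma in general.
-/

namespace Pool.Agent.H.MP_6036e3_co

open Finset

section residue

set_option linter.unusedSectionVars false

variable {V : Type*} [Fintype V] [DecidableEq V] {G : SimpleGraph V}

/-- `D` is a component of the subgraph induced on `Y` -/
structure IsComp (G : SimpleGraph V) (Y D : Finset V) : Prop where
  sub : D ⊆ Y
  C : Cn G D
  closed : ∀ a ∈ D, ∀ b ∈ Y, b ∉ D → ¬ G.Adj a b

lemma IsComp.exists {Y : Finset V} {y : V} (hy : y ∈ Y) : ∃ D, IsComp G Y D ∧ y ∈ D := by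
  obtain ⟨K, hKY, hyK, hK, hcl⟩ := exists_comp (G := G) hy
  exact ⟨K, ⟨hKY, hK, hcl⟩, hyK⟩

lemma IsComp.absorb {Y D S : Finset V} (hD : IsComp G Y D) (hS : Cn G S) (hSY : S ⊆ Y) {x : V}
    (hxS : x ∈ S) (hxD : x ∈ D) : S ⊆ D := hS.sub hSY hxS hxD hD.closed

namespace Bad

variable {X : Finset V} {w u : V} (h : Ctx G) (B : Bad G X w u)

include h B

lemma stepA {v : V} (hvw : G.Adj v w) (hvY : PS G v (X.erase w)) {D : Finset V}
    (hD : IsComp G (X.erase w) D) :
    ∃ y₀ ∈ D, ∃ p, G.Adj p y₀ ∧ PS G p ((insert v X).erase y₀) ∧ G.Adj p u := by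
  by_contra hcon
  push Not at hcon
  have hF := B.full_ins h hvw hvY
  have hvu := B.Padj h hvw hvY
  have hvX := B.P_notMem hvw hvY
  have hDX : D ⊆ X := hD.sub.trans (Finset.erase_subset w X)
  have hwD : w ∉ D := fun h' => (Finset.mem_erase.1 (hD.sub h')).1 rfl
  have hZ : ∀ t, PS G t (insert v X \ D) → Pp G t u := by
    intro t ht
    refine h.cl hF (Z := insert v X \ D) Finset.sdiff_subset ?_ ?_ ht
    · rw [Finset.mem_insert]
      rintro (rfl | h')
      · exact G.irrefl hvu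
      · exact B.u_notMem h h'
    · intro x hx hxZ
      have hxD : x ∈ D := by
        by_contra h'
        exact hxZ (Finset.mem_sdiff.2 ⟨hx, h'⟩)
      obtain ⟨p, hp, hp'⟩ := h.pr _ hF.2.1 hF.1 x hx
      refine ⟨p, hp, hp', ?_, hcon x hxD p hp hp'⟩
      rintro rfl
      exact (B.up x (hDX hxD)).2 hp
  -- an edge from `D` to `w`
  obtain ⟨a, ha, b, hb, hbD, hab⟩ := B.C.2 D hDX hD.C.1 (by
    intro h'
    rw [h'] at hwD
    exact hwD B.w_mem)
  have hbw : b = w := by
    by_contra h'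
    exact hD.closed a ha b (Finset.mem_erase.2 ⟨h', hb⟩) hbD hab
  subst hbw
  have hwXD : b ∈ X \ D := Finset.mem_sdiff.2 ⟨B.w_mem, hwD⟩
  have hC0 : Cn G (X \ D) := by
    refine B.C.removeComp B.w_mem hwD ?_
    intro x hx y hy hyw hyD
    exact hD.closed x hx y (Finset.mem_erase.2 ⟨hyw, hy⟩) hyD
  have hC : Cn G (insert u (insert v (X \ D))) :=
    (hC0.ins hwXD hvw.symm).ins (Finset.mem_insert_self v _) hvu
  have hE0 : El G ((X.erase b \ D) ∪ {u, v}) := by
    refine El.union ?_ (B.E.mono (Finset.sdiff_subset.trans (Finset.erase_subset b X)))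
      (h.El_pair u v)
    intro x hx y hy
    have hxX := (Finset.mem_sdiff.1 hx).1
    rcases Finset.mem_insert.1 hy with rfl | hy
    · exact (B.up x (Finset.mem_of_mem_erase hxX)).symm
    · rw [Finset.mem_singleton.1 hy]
      exact (hvY x hxX).symm
  have hE1 : El G (insert b ((X.erase b \ D) ∪ {u, v})) := by
    refine El.ins hE0 hab ?_
    refine PS.union ?_ ?_
    · intro x hx
      obtain ⟨hx1, hx2⟩ := Finset.mem_sdiff.1 hx
      refine ⟨?_, hD.closed a ha x hx1 hx2⟩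
      rintro rfl
      exact hx2 ha
    · intro x hx
      rcases Finset.mem_insert.1 hx with rfl | hx
      · exact (B.up a (hDX ha)).symm
      · rw [Finset.mem_singleton.1 hx]
        exact (hvY a (hD.sub ha)).symm
  have hE : El G (insert u (insert v (X \ D))) := by
    refine hE1.mono ?_
    intro x hx
    simp only [Finset.mem_insert, Finset.mem_sdiff, Finset.mem_union, Finset.mem_erase,
      Finset.mem_singleton] at hx ⊢
    tauto
  obtain ⟨t, htu, ht⟩ := h.pr _ hE hC u (Finset.mem_insert_self u _)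
  refine (hZ t ?_).2 htu
  intro x hx
  obtain ⟨hx1, hx2⟩ := Finset.mem_sdiff.1 hx
  apply ht x
  refine Finset.mem_erase.2 ⟨?_, ?_⟩
  · rintro rfl
    rcases Finset.mem_insert.1 hx1 with h' | h'
    · rw [h'] at hvu
      exact G.irrefl hvu
    · exact B.u_notMem h h'
  · rcases Finset.mem_insert.1 hx1 with h' | h'
    · rw [h']
      simp
    · exact Finset.mem_insert_of_mem (Finset.mem_insert_of_mem (Finset.mem_sdiff.2 ⟨h', hx2⟩))

lemma stepB {D D' : Finset V} (hD : IsComp G (X.erase w) D) (hD' : IsComp G (X.erase w) D')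
    (hdis : ∀ x ∈ D', x ∉ D) :
    ∃ m, (∀ l, PS G l (X.erase w) → Pp G l m) ∧ (∃ a ∈ D, G.Adj m a) ∧ ∃ a' ∈ D', G.Adj m a' := by
  obtain ⟨v, hvw, hvY⟩ := B.exists_P h
  have hF := B.full_ins h hvw hvY
  have hvu := B.Padj h hvw hvY
  have hvX := B.P_notMem hvw hvY
  have hDX : D ⊆ X := hD.sub.trans (Finset.erase_subset w X)
  have hDX' : D' ⊆ X := hD'.sub.trans (Finset.erase_subset w X)
  have hwD : w ∉ D := fun h' => (Finset.mem_erase.1 (hD.sub h')).1 rfl
  obtain ⟨y₀, hy₀, p₀, hp₀, hp₀', hp₀u⟩ := B.stepA h hvw hvY hD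
  obtain ⟨y₁, hy₁, p₁, hp₁, hp₁', hp₁u⟩ := B.stepA h hvw hvY hD'
  have hy₀w : y₀ ≠ w := fun h' => hwD (h' ▸ hy₀)
  have hvy₀ : v ≠ y₀ := fun h' => hvX (h' ▸ hDX hy₀)
  have hE2 : El G (insert u ((insert v X).erase y₀)) :=
    El.ins (hF.2.1.mono (Finset.erase_subset _ _)) hp₀u hp₀'
  have hw2 : w ∈ insert u ((insert v X).erase y₀) :=
    Finset.mem_insert_of_mem (Finset.mem_erase.2 ⟨hy₀w.symm, Finset.mem_insert_of_mem B.w_mem⟩)
  obtain ⟨K, hKW, hwK, hK, hcl⟩ := exists_comp (G := G) hw2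
  have hC0 : Cn G (X \ D) := by
    refine B.C.removeComp B.w_mem hwD ?_
    intro x hx y hy hyw hyD
    exact hD.closed x hx y (Finset.mem_erase.2 ⟨hyw, hy⟩) hyD
  have hXDW : X \ D ⊆ insert u ((insert v X).erase y₀) := by
    intro x hx
    obtain ⟨hx1, hx2⟩ := Finset.mem_sdiff.1 hx
    exact Finset.mem_insert_of_mem (Finset.mem_erase.2 ⟨fun h' => hx2 (h' ▸ hy₀),
      Finset.mem_insert_of_mem hx1⟩)
  have hXDK : X \ D ⊆ K := hC0.sub hXDW (Finset.mem_sdiff.2 ⟨B.w_mem, hwD⟩) hwK hcl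
  have hvW2 : v ∈ insert u ((insert v X).erase y₀) :=
    Finset.mem_insert_of_mem (Finset.mem_erase.2 ⟨hvy₀, Finset.mem_insert_self v X⟩)
  have hvK : v ∈ K := by
    by_contra h'
    exact hcl w hwK v hvW2 h' hvw.symm
  have huK : u ∈ K := by
    by_contra h'
    exact hcl v hvK u (Finset.mem_insert_self u _) h' hvu
  have hy₁K : y₁ ∈ K := hXDK (Finset.mem_sdiff.2 ⟨hDX' hy₁, hdis y₁ hy₁⟩)
  obtain ⟨m, hm, hmK⟩ := h.pr K (hE2.mono hKW) hK y₁ hy₁K
  have hy₁w : y₁ ≠ w := fun h' => (Finset.mem_erase.1 (hD'.sub hy₁)).1 h'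
  have hmu : Pp G m u := hmK u (Finset.mem_erase.2
    ⟨fun h' => B.u_notMem h (h' ▸ hDX' hy₁), huK⟩)
  have hmv : Pp G m v := hmK v (Finset.mem_erase.2 ⟨fun h' => hvX (h' ▸ hDX' hy₁), hvK⟩)
  refine ⟨m, ?_, ?_, y₁, hy₁, hm⟩
  · intro l hl
    by_cases hmY : m ∈ X.erase w
    · exact hl m hmY
    · exact B.c4 h hvw hvY hmu hmv hmY hl
  · by_contra hcon
    push Not at hcon
    have hmW : PS G m ((insert v X).erase y₁) := by
      intro x hx
      obtain ⟨hxy, hx⟩ := Finset.mem_erase.1 hx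
      rcases Finset.mem_insert.1 hx with rfl | hx
      · exact hmv
      · by_cases hxD : x ∈ D
        · refine ⟨?_, hcon x hxD⟩
          rintro rfl
          exact hD.closed m hxD y₁ (hD'.sub hy₁) (hdis y₁ hy₁) hm
        · exact hmK x (Finset.mem_erase.2 ⟨hxy, hXDK (Finset.mem_sdiff.2 ⟨hx, hxD⟩)⟩)
    have := h.uniq hF (Finset.mem_insert_of_mem (hDX' hy₁)) hmW hm hp₁' hp₁
    rw [this] at hmu
    exact hmu.2 hp₁u

theorem false : False := by
  classical
  obtain ⟨v, hvw, hvY⟩ := B.exists_P h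
  obtain ⟨y, hy, hyw, hwy⟩ := B.C.nbr B.two B.w_mem
  have hyY : y ∈ X.erase w := Finset.mem_erase.2 ⟨hyw, hy⟩
  have huY : PS G u (X.erase w) := B.up.mono (Finset.erase_subset w X)
  let M : Finset V := Finset.univ.filter fun m => ∀ l, PS G l (X.erase w) → Pp G l m
  have memM : ∀ m, m ∈ M ↔ ∀ l, PS G l (X.erase w) → Pp G l m := by
    intro m
    simp only [M, Finset.mem_filter, Finset.mem_univ, true_and]
  have hYM : X.erase w ⊆ M := by
    intro x hx
    rw [memM]
    intro l hl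
    exact hl x hx
  -- all of `Y` lies in one component of `M`
  obtain ⟨K, hK, hyK⟩ := IsComp.exists (G := G) (hYM hyY)
  have hYK : X.erase w ⊆ K := by
    obtain ⟨D, hD, hyD⟩ := IsComp.exists (G := G) hyY
    have hDK : D ⊆ K := hK.absorb hD.C (hD.sub.trans hYM) hyD hyK
    intro x hx
    by_cases hxD : x ∈ D
    · exact hDK hxD
    obtain ⟨D', hD', hxD'⟩ := IsComp.exists (G := G) hx
    have hdis : ∀ z ∈ D', z ∉ D := by
      intro z hz hzD
      exact hxD (hD.absorb hD'.C hD'.sub hz hzD hxD')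
    obtain ⟨m, hm, ⟨a, ha, hma⟩, a', ha', hma'⟩ := B.stepB h hD hD' hdis
    have hmM : m ∈ M := (memM m).2 hm
    have hmK : m ∈ K := by
      by_contra h'
      exact hK.closed a (hDK ha) m hmM h' hma.symm
    have haK : a' ∈ K := by
      by_contra h'
      exact hK.closed m hmK a' (hYM (hD'.sub ha')) h' hma'
    exact hK.absorb hD'.C (hD'.sub.trans hYM) ha' haK hxD'
  -- a maximal connected eliminable subset of `M` containing `y`
  let 𝒮 : Finset (Finset V) := Finset.univ.filter fun T => T ⊆ M ∧ y ∈ T ∧ Cn G T ∧ El G T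
  have hne : 𝒮.Nonempty := ⟨{y}, Finset.mem_filter.2 ⟨Finset.mem_univ _,
    Finset.singleton_subset_iff.2 (hYM hyY), Finset.mem_singleton_self y, Cn.sing y,
    h.El_sing y⟩⟩
  obtain ⟨T, hT, hmax⟩ := Finset.exists_max_image 𝒮 Finset.card hne
  obtain ⟨-, hTM, hyT, hCT, hET⟩ := Finset.mem_filter.1 hT
  have hTmax : ∀ z ∈ M, z ∉ T → ¬ PS G z T → ∀ t, PS G t T → Pp G t z := by
    intro z hzM hzT hzP t ht
    by_contra hcon
    have hne : t ≠ z := by rintro rfl; exact hzP ht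
    obtain ⟨x, hx, hzx⟩ := not_PS hzP hzT
    have := hmax (insert z T) (Finset.mem_filter.2 ⟨Finset.mem_univ _,
      Finset.insert_subset hzM hTM, Finset.mem_insert_of_mem hyT, hCT.ins hx hzx.symm,
      El.ins hET (not_Pp hcon hne) ht⟩)
    rw [Finset.card_insert_of_notMem hzT] at this
    omega
  have hKT : ∀ q ∈ K, ¬ PS G q T := by
    intro q hq hqT
    obtain ⟨a, ha, b, hb, hbS, hab⟩ := hK.C.2 (K.filter fun q => PS G q T)
      (Finset.filter_subset _ _) ⟨q, Finset.mem_filter.2 ⟨hq, hqT⟩⟩ (by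
        intro heq
        have : y ∈ K.filter fun q => PS G q T := by rw [heq]; exact hyK
        exact Pp_irrefl ((Finset.mem_filter.1 this).2 y hyT))
    obtain ⟨haK, haT⟩ := Finset.mem_filter.1 ha
    have hbP : ¬ PS G b T := fun h' => hbS (Finset.mem_filter.2 ⟨hb, h'⟩)
    have hbT : b ∉ T := fun h' => (haT b h').2 hab
    exact (hTmax b (hK.sub hb) hbT hbP a haT).2 hab
  have hTY : ∀ t, PS G t T → PS G t (X.erase w) := by
    intro t ht x hx
    by_cases hxT : x ∈ T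
    · exact ht x hxT
    · exact hTmax x (hYM hx) hxT (hKT x (hYK hx)) t ht
  have hYT : ∀ t, PS G t (X.erase w) → PS G t T := by
    intro t ht x hx
    exact (memM x).1 (hTM hx) t ht
  have hwT : w ∉ T := by
    intro h'
    exact ((memM w).1 (hTM h') v hvY).2 hvw
  have hwP : ¬ PS G w T := by
    intro h'
    exact (hTY w h' y hyY).2 hwy
  obtain ⟨x, hx, hwx⟩ := not_PS hwP hwT
  have hE' : El G (insert w T) := El.ins hET hvw (hYT v hvY)
  have hC' : Cn G (insert w T) := hCT.ins hx hwx.symm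
  have huT : PS G u (insert w T) := (hYT u huY).insert (B.uw h)
  obtain ⟨t, htw, htT, htu⟩ := h.Rnc hE' hC' (Finset.mem_insert_self w T)
    (by rw [Finset.erase_insert hwT]; exact hCT) huT
  rw [Finset.erase_insert hwT] at htT
  exact B.bad t htw (hTY t htT) htu

end Bad

/-- **Residue lemma.** -/
theorem Ctx.R (h : Ctx G) {X : Finset V} (hE : El G X) (hC : Cn G X) (h2 : 2 ≤ X.card) {w : V}
    (hw : w ∈ X) {u : V} (hu : PS G u X) :
    ∃ t, G.Adj t w ∧ PS G t (X.erase w) ∧ Pp G t u := by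
  classical
  by_contra hcon
  push Not at hcon
  let 𝒮 : Finset (Finset V) := Finset.univ.filter fun K =>
    X ⊆ K ∧ El G K ∧ Cn G K ∧ PS G u K
  have hne : 𝒮.Nonempty := ⟨X, Finset.mem_filter.2 ⟨Finset.mem_univ X, Finset.Subset.refl X,
    hE, hC, hu⟩⟩
  obtain ⟨K, hK, hmax⟩ := Finset.exists_max_image 𝒮 Finset.card hne
  obtain ⟨-, hXK, hEK, hCK, huK⟩ := Finset.mem_filter.1 hK
  have hwK : w ∈ K := hXK hw
  have hbad : ∀ t, G.Adj t w → PS G t (K.erase w) → ¬ Pp G t u :=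
    fun t ht ht' => hcon t ht (ht'.mono (Finset.erase_subset_erase w hXK))
  have B : Bad G K w u := by
    refine ⟨hEK, hCK, h2.trans (Finset.card_le_card hXK), hwK, huK, hbad, ?_⟩
    intro z hzu hzK hzP hEz
    obtain ⟨y, hy, hzy⟩ := not_PS hzP hzK
    have := hmax (insert z K) (Finset.mem_filter.2 ⟨Finset.mem_univ _,
      hXK.trans (Finset.subset_insert z K), hEz, hCK.ins hy hzy.symm, huK.insert hzu.symm⟩)
    rw [Finset.card_insert_of_notMem hzK] at this
    omega
  exact B.false h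

end residue

end Pool.Agent.H.MP_6036e3_co
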