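import Pool.Agent.H.MP_6036e3_co.Basic

/-!
Structure theory of graphs in which all eliminable connected sets have private neighbours.
-/

namespace Pool.Agent.H.MP_6036e3_co

open Finset

section theory

set_option linter.unusedSectionVars false

variable {V : Type*} [Fintype V] [DecidableEq V] {G : SimpleGraph V}

/-- standing hypotheses -/
structure Ctx (G : SimpleGraph V) : Prop where
  conn : Cn G Finset.univ
  two : 2 ≤ Fintype.card V
  tw : ∀ x y, G.Adj x y → ∃ u, G.Adj u x ∧ Pp G u y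
  pr : ∀ W, El G W → Cn G W → ∀ w ∈ W, ∃ u, G.Adj u w ∧ PS G u (W.erase w)

namespace Ctx

variable (h : Ctx G)

include h

lemma nb (x : V) : ∃ u, G.Adj u x := by
  obtain ⟨y, -, -, hy⟩ := h.conn.nbr (by rw [Finset.card_univ]; exact h.two) (Finset.mem_univ x)
  exact ⟨y, hy.symm⟩

lemma El_sing (x : V) : El G {x} := by
  obtain ⟨u, hu⟩ := h.nb x
  exact El.singleton hu

lemma El_pair (x y : V) : El G {x, y} := by
  by_cases hxy : x = y
  · rw [hxy, Finset.pair_eq_singleton]
    exact h.El_sing y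
  by_cases hadj : G.Adj x y
  · obtain ⟨u, hu, hu'⟩ := h.tw x y hadj
    refine El.ins (h.El_sing y) hu ?_
    intro z hz
    rw [Finset.mem_singleton.1 hz]
    exact hu'
  · refine El.insPerp (h.El_sing y) (h.El_sing x) ?_
    intro z hz
    rw [Finset.mem_singleton.1 hz]
    exact ⟨hxy, hadj⟩

lemma edge_out {X : Finset V} (hX : X.Nonempty) {u : V} (hu : PS G u X) :
    ∃ u₁ z, PS G u₁ X ∧ ¬ PS G z X ∧ G.Adj u₁ z := by
  classical
  obtain ⟨x, hx⟩ := hX
  obtain ⟨a, ha, b, -, hb, hab⟩ := h.conn.2 (Finset.univ.filter fun r => PS G r X)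
    (Finset.subset_univ _) ⟨u, Finset.mem_filter.2 ⟨Finset.mem_univ u, hu⟩⟩ (by
      intro heq
      have : x ∈ Finset.univ.filter fun r => PS G r X := by rw [heq]; exact Finset.mem_univ x
      exact Pp_irrefl ((Finset.mem_filter.1 this).2 x hx))
  refine ⟨a, b, (Finset.mem_filter.1 ha).2, ?_, hab⟩
  intro hb'
  exact hb (Finset.mem_filter.2 ⟨Finset.mem_univ b, hb'⟩)

omit h in
/-- inclusion-maximal connected eliminable sets -/
def Full (G : SimpleGraph V) (W : Finset V) : Prop := Cn G W ∧ El G W ∧ ∀ u, ¬ PS G u W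

lemma notEl {W : Finset V} (hW : Full G W) {y : V} (hy : y ∉ W) : ¬ El G (insert y W) := by
  intro hE
  obtain ⟨x, hx, hyx⟩ := not_PS (hW.2.2 y) hy
  obtain ⟨u, -, hu⟩ := h.pr _ hE (hW.1.ins hx hyx.symm) y (Finset.mem_insert_self y W)
  rw [Finset.erase_insert hy] at hu
  exact hW.2.2 u hu

lemma exists_full {X : Finset V} (hE : El G X) (hC : Cn G X) : ∃ W, X ⊆ W ∧ Full G W := by
  classical
  let 𝒮 : Finset (Finset V) := Finset.univ.filter fun K => X ⊆ K ∧ El G K ∧ Cn G K
  have hne : 𝒮.Nonempty := ⟨X, Finset.mem_filter.2 ⟨Finset.mem_univ X, Finset.Subset.refl X, hE, hC⟩⟩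
  obtain ⟨W, hW, hmax⟩ := Finset.exists_max_image 𝒮 Finset.card hne
  obtain ⟨-, hXW, hEW, hCW⟩ := Finset.mem_filter.1 hW
  refine ⟨W, hXW, hCW, hEW, ?_⟩
  intro u hu
  obtain ⟨u₁, z, hu₁, hz, hadj⟩ := h.edge_out hCW.1 hu
  have hzW : z ∉ W := fun hzW => (hu₁ z hzW).2 hadj
  obtain ⟨x, hx, hzx⟩ := not_PS hz hzW
  have := hmax (insert z W) (Finset.mem_filter.2 ⟨Finset.mem_univ _,
    hXW.trans (Finset.subset_insert z W), El.ins hEW hadj hu₁, hCW.ins hx hzx.symm⟩)
  rw [Finset.card_insert_of_notMem hzW] at this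
  omega

lemma adj_of {W : Finset V} (hW : Full G W) (h2 : 2 ≤ W.card) {w a : V} (hw : w ∈ W)
    (ha : PS G a (W.erase w)) : G.Adj a w := by
  have hne : a ≠ w := by
    rintro rfl
    obtain ⟨y, hy, hya, hay⟩ := hW.1.nbr h2 hw
    exact (ha y (Finset.mem_erase.2 ⟨hya, hy⟩)).2 hay
  refine not_Pp (fun hp => hW.2.2 a ?_) hne
  rw [← Finset.insert_erase hw]
  exact ha.insert hp

lemma uniq {W : Finset V} (hW : Full G W) {w a b : V} (hw : w ∈ W)
    (ha : PS G a (W.erase w)) (haw : G.Adj a w) (hb : PS G b (W.erase w)) (hbw : G.Adj b w) :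
    a = b := by
  by_contra hab
  have hEw : El G (W.erase w) := hW.2.1.mono (Finset.erase_subset w W)
  have hadj : G.Adj a b := by
    by_contra hnadj
    have haW : a ∉ W := by
      intro haW
      exact ha.notMem (Finset.mem_erase.2 ⟨haw.ne, haW⟩)
    apply h.notEl hW haW
    have h1 : El G (insert a (W.erase w)) := El.insPerp hEw (h.El_sing a) ha
    have h2 : El G (insert w (insert a (W.erase w))) :=
      El.ins h1 hbw (hb.insert ⟨fun h' => hab h'.symm, fun h' => hnadj h'.symm⟩)
    rwa [Finset.insert_comm, Finset.insert_erase hw] at h2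
  obtain ⟨v, hvb, hva⟩ := h.tw b a hadj.symm
  have hvW : v ∉ W := by
    intro hvW
    by_cases hvw : v = w
    · subst hvw
      exact hva.2 haw.symm
    · exact (hb v (Finset.mem_erase.2 ⟨hvw, hvW⟩)).2 hvb.symm
  apply h.notEl hW hvW
  have h1 : El G (insert v (W.erase w)) := El.ins hEw hvb.symm hb
  have h2 : El G (insert w (insert v (W.erase w))) := El.ins h1 haw (ha.insert hva.symm)
  rwa [Finset.insert_comm, Finset.insert_erase hw] at h2

/-- closure lemma -/
lemma cl {W : Finset V} (hW : Full G W) {Z : Finset V} (hZ : Z ⊆ W) {y : V} (hy : y ∉ W)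
    (hp : ∀ w ∈ W, w ∉ Z → ∃ p, G.Adj p w ∧ PS G p (W.erase w) ∧ Pp G p y) {t : V}
    (ht : PS G t Z) : Pp G t y := by
  by_contra hcon
  have h1 : El G (insert y Z) := by
    by_cases hty : t = y
    · subst hty
      exact El.insPerp (hW.2.1.mono hZ) (h.El_sing t) ht
    · exact El.ins (hW.2.1.mono hZ) (not_Pp hcon hty) ht
  have h2 : ∀ T : Finset V, T ⊆ W \ Z → El G (insert y (Z ∪ T)) := by
    intro T
    induction T using Finset.induction_on with
    | empty => intro _; rwa [Finset.union_empty]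
    | @insert a T haT ih =>
      intro hT
      have haWZ := Finset.mem_sdiff.1 (hT (Finset.mem_insert_self a T))
      obtain ⟨p, hpa, hpW, hpy⟩ := hp a haWZ.1 haWZ.2
      have h3 := ih ((Finset.subset_insert a T).trans hT)
      have h4 : El G (insert a (insert y (Z ∪ T))) := by
        refine El.ins h3 hpa (PS.insert ?_ hpy)
        intro x hx
        apply hpW x
        rcases Finset.mem_union.1 hx with hx | hx
        · exact Finset.mem_erase.2 ⟨fun h' => haWZ.2 (h' ▸ hx), hZ hx⟩
        · exact Finset.mem_erase.2 ⟨fun h' => haT (h' ▸ hx),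
            (Finset.mem_sdiff.1 (hT (Finset.mem_insert_of_mem hx))).1⟩
      rwa [Finset.union_insert, Finset.insert_comm]
  apply h.notEl hW hy
  have := h2 (W \ Z) (Finset.Subset.refl _)
  rwa [Finset.union_sdiff_of_subset hZ] at this

end Ctx

/-- a bad configuration which cannot be extended -/
structure Bad (G : SimpleGraph V) (X : Finset V) (w u : V) : Prop where
  E : El G X
  C : Cn G X
  two : 2 ≤ X.card
  w_mem : w ∈ X
  up : PS G u X
  bad : ∀ t, G.Adj t w → PS G t (X.erase w) → ¬ Pp G t u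
  max : ∀ z, Pp G z u → z ∉ X → ¬ PS G z X → ¬ El G (insert z X)

namespace Bad

variable {X : Finset V} {w u : V} (h : Ctx G) (B : Bad G X w u)

include h B

lemma uw : Pp G u w := B.up w B.w_mem

lemma u_notMem : u ∉ X := B.up.notMem

/-- elements of `P` are adjacent to `u` -/
lemma Padj {v : V} (hv : G.Adj v w) (hv' : PS G v (X.erase w)) : G.Adj v u := by
  refine not_Pp (B.bad v hv hv') ?_
  rintro rfl
  exact (B.up w B.w_mem).2 hv

omit h in
lemma P_notMem {v : V} (hv : G.Adj v w) (hv' : PS G v (X.erase w)) : v ∉ X := by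
  intro hvX
  exact hv'.notMem (Finset.mem_erase.2 ⟨hv.ne, hvX⟩)

omit h in
lemma P_notPS {v : V} (hv : G.Adj v w) : ¬ PS G v X := fun h' => (h' w B.w_mem).2 hv

lemma exists_P : ∃ v, G.Adj v w ∧ PS G v (X.erase w) := h.pr X B.E B.C w B.w_mem

lemma c1 {z r : V} (hz : Pp G z u) (hzX : z ∉ X) (hzP : ¬ PS G z X) (hr : PS G r X) :
    Pp G r z := by
  by_contra hcon
  have hne : r ≠ z := by rintro rfl; exact hzP hr
  exact B.max z hz hzX hzP (El.ins B.E (not_Pp hcon hne) hr)

lemma cfin {z : V} (hzX : z ∉ X) (hzP : ¬ PS G z X) (hzu : G.Adj z u)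
    (hE : El G (insert u (insert z X))) : False := by
  obtain ⟨x, hx, hzx⟩ := not_PS hzP hzX
  have hC : Cn G (insert u (insert z X)) :=
    (B.C.ins hx hzx.symm).ins (Finset.mem_insert_self z X) hzu
  obtain ⟨W, hXW, hW⟩ := h.exists_full hE hC
  have hwW : w ∈ W := hXW (by simp [B.w_mem])
  obtain ⟨p, hpw, hp⟩ := h.pr W hW.2.1 hW.1 w hwW
  refine B.bad p hpw ?_ ?_
  · refine hp.mono (Finset.erase_subset_erase w ?_)
    exact (Finset.subset_insert z X).trans ((Finset.subset_insert u _).trans hXW)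
  · refine hp u (Finset.mem_erase.2 ⟨?_, hXW (Finset.mem_insert_self u _)⟩)
    rintro rfl
    exact B.up.notMem B.w_mem

lemma c2 {z r : V} (hzX : z ∉ X) (hzP : ¬ PS G z X) (hzu : G.Adj z u) (hr : PS G r X) :
    Pp G r z ↔ Pp G r u := by
  constructor
  · intro hrz
    by_contra hcon
    have hne : r ≠ u := by rintro rfl; exact hrz.2 hzu.symm
    have h1 : El G (insert z X) := El.ins B.E hzu.symm B.up
    have h2 : El G (insert u (insert z X)) := El.ins h1 (not_Pp hcon hne) (hr.insert hrz)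
    exact B.cfin h hzX hzP hzu h2
  · intro hru
    by_contra hcon
    have hne : r ≠ z := by rintro rfl; exact hzP hr
    have h1 : El G (insert u X) := El.insPerp B.E (h.El_sing u) B.up
    have h2 : El G (insert z (insert u X)) := El.ins h1 (not_Pp hcon hne) (hr.insert hru)
    rw [Finset.insert_comm] at h2
    exact B.cfin h hzX hzP hzu h2

lemma c3 {r : V} (hr : PS G r X) : r = u := by
  classical
  by_contra hru
  by_cases hcase : ∃ r, PS G r X ∧ G.Adj r u
  · obtain ⟨r, hr, hadj⟩ := hcase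
    obtain ⟨z, hzr, hzu⟩ := h.tw r u hadj
    have hzX : z ∉ X := fun hz => (hr z hz).2 hzr.symm
    have hzP : PS G z X := by
      by_contra hzP
      exact (B.c1 h hzu hzX hzP hr).2 hzr.symm
    obtain ⟨v, hvw, hv⟩ := B.exists_P h
    have hvu := B.Padj h hvw hv
    have hvX := B.P_notMem hvw hv
    have hvP := B.P_notPS hvw
    have hzv : Pp G z v := (B.c2 h hvX hvP hvu hzP).2 hzu
    have hrv : G.Adj r v := by
      refine not_Pp (fun h' => ?_) ?_
      · exact ((B.c2 h hvX hvP hvu hr).1 h').2 hadj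
      · rintro rfl
        exact hvP hr
    have h1 : El G (insert v X) := El.ins B.E hvu.symm B.up
    have h2 : El G (insert r (insert v X)) := El.ins h1 hzr (hzP.insert hzv)
    have hC : Cn G (insert r (insert v X)) :=
      (B.C.ins B.w_mem hvw.symm).ins (Finset.mem_insert_self v X) hrv.symm
    obtain ⟨W, hXW, hW⟩ := h.exists_full h2 hC
    have hwW : w ∈ W := hXW (by simp [B.w_mem])
    obtain ⟨p, hpw, hp⟩ := h.pr W hW.2.1 hW.1 w hwW
    have hpX : PS G p (X.erase w) := hp.mono (Finset.erase_subset_erase w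
      ((Finset.subset_insert v X).trans ((Finset.subset_insert r _).trans hXW)))
    have hrp : Pp G p r := hp r (Finset.mem_erase.2 ⟨by
      rintro rfl
      exact hr.notMem B.w_mem, hXW (Finset.mem_insert_self r _)⟩)
    have hpu := B.Padj h hpw hpX
    exact ((B.c2 h (B.P_notMem hpw hpX) (B.P_notPS hpw) hpu hr).1 hrp.symm).2 hadj
  · push Not at hcase
    obtain ⟨a, ha, b, -, hb, hab⟩ := h.conn.2
      (Finset.univ.filter fun r => PS G r X ∧ r ≠ u) (Finset.subset_univ _)
      ⟨r, Finset.mem_filter.2 ⟨Finset.mem_univ r, hr, hru⟩⟩ (by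
        intro heq
        have : u ∈ Finset.univ.filter fun r => PS G r X ∧ r ≠ u := by
          rw [heq]; exact Finset.mem_univ u
        exact (Finset.mem_filter.1 this).2.2 rfl)
    obtain ⟨-, haX, hau⟩ := Finset.mem_filter.1 ha
    have hb' : PS G b X → b = u := by
      intro h1
      by_contra h2
      exact hb (Finset.mem_filter.2 ⟨Finset.mem_univ b, h1, h2⟩)
    have hapu : Pp G a u := ⟨hau, hcase a haX⟩
    have hbP : ¬ PS G b X := by
      intro h1
      rw [hb' h1] at hab
      exact hapu.2 hab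
    have hbX : b ∉ X := fun hbX => (haX b hbX).2 hab
    by_cases hbu : Pp G b u
    · exact (B.c1 h hbu hbX hbP haX).2 hab
    · have hbne : b ≠ u := by
        rintro rfl
        exact hbP B.up
      exact ((B.c2 h hbX hbP (not_Pp hbu hbne) haX).2 hapu).2 hab

lemma full_ins {v : V} (hv : G.Adj v w) (hv' : PS G v (X.erase w)) : Ctx.Full G (insert v X) := by
  refine ⟨B.C.ins B.w_mem hv.symm, El.ins B.E (B.Padj h hv hv').symm B.up, ?_⟩
  intro r hr
  have h1 := B.c3 h (hr.mono (Finset.subset_insert v X))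
  subst h1
  exact (hr v (Finset.mem_insert_self v X)).2 (B.Padj h hv hv').symm

lemma L_cases {t : V} (ht : PS G t (X.erase w)) : t = u ∨ G.Adj t w := by
  by_cases htw : t = w
  · subst htw
    obtain ⟨y, hy, hyw, hwy⟩ := B.C.nbr B.two B.w_mem
    exact absurd hwy (ht y (Finset.mem_erase.2 ⟨hyw, hy⟩)).2
  · by_cases hadj : G.Adj t w
    · exact Or.inr hadj
    · left
      apply B.c3 h
      rw [← Finset.insert_erase B.w_mem]
      exact ht.insert ⟨htw, hadj⟩

/-- the partner of an element of `P` -/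
lemma partner {v : V} (hv : G.Adj v w) (hv' : PS G v (X.erase w)) :
    ∃ v', G.Adj v' w ∧ PS G v' (X.erase w) ∧ Pp G v' v := by
  have hF := B.full_ins h hv hv'
  obtain ⟨p, hpw, hp⟩ := h.pr _ hF.2.1 hF.1 w (Finset.mem_insert_of_mem B.w_mem)
  refine ⟨p, hpw, hp.mono (Finset.erase_subset_erase w (Finset.subset_insert v X)), ?_⟩
  exact hp v (Finset.mem_erase.2 ⟨hv.ne, Finset.mem_insert_self v X⟩)

lemma c4 {v' d : V} (hv : G.Adj v' w) (hv' : PS G v' (X.erase w)) (hdu : Pp G d u)
    (hdv : Pp G d v') (hdY : d ∉ X.erase w) {t : V} (ht : PS G t (X.erase w)) : Pp G t d := by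
  obtain ⟨v, hvw, hvY, hvv'⟩ := B.partner h hv hv'
  have hF := B.full_ins h hvw hvY
  have hvu := B.Padj h hvw hvY
  have hvX := B.P_notMem hvw hvY
  refine h.cl hF (Z := X.erase w) ((Finset.erase_subset w X).trans (Finset.subset_insert v X)) ?_ ?_
    ht
  · rw [Finset.mem_insert]
    rintro (rfl | hdX)
    · exact hdu.2 hvu
    · apply hdY
      refine Finset.mem_erase.2 ⟨?_, hdX⟩
      rintro rfl
      exact hdv.2 hv.symm
  · intro x hx hxY
    rcases Finset.mem_insert.1 hx with rfl | hx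
    · refine ⟨u, hvu.symm, ?_, hdu.symm⟩
      rw [Finset.erase_insert hvX]
      exact B.up
    · have hxw : x = w := by
        by_contra hne
        exact hxY (Finset.mem_erase.2 ⟨hne, hx⟩)
      subst hxw
      refine ⟨v', hv, ?_, hdv.symm⟩
      rw [Finset.erase_insert_of_ne hvw.ne]
      exact hv'.insert hvv'.symm

/-- the non-cut case is impossible -/
theorem noncut (hY : Cn G (X.erase w)) : False := by
  obtain ⟨v', hv'w, hv'Y⟩ := B.exists_P h
  obtain ⟨v, hvw, hvY, hvv'⟩ := B.partner h hv'w hv'Y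
  have hvu := B.Padj h hvw hvY
  have hv'u := B.Padj h hv'w hv'Y
  obtain ⟨y, hy, hyw, hwy⟩ := B.C.nbr B.two B.w_mem
  have hyY : y ∈ X.erase w := Finset.mem_erase.2 ⟨hyw, hy⟩
  -- the path v, w, v'
  have hE1 : El G (insert w {v, v'}) := by
    refine El.ins (h.El_pair v v') hwy.symm ?_
    intro x hx
    rcases Finset.mem_insert.1 hx with rfl | hx
    · exact (hvY y hyY).symm
    · rw [Finset.mem_singleton.1 hx]
      exact (hv'Y y hyY).symm
  have hC1 : Cn G (insert w {v, v'}) := by
    have h1 : Cn G (insert v' (insert v {w})) :=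
      ((Cn.sing w).ins (Finset.mem_singleton_self w) hvw.symm).ins
        (Finset.mem_insert_of_mem (Finset.mem_singleton_self w)) hv'w.symm
    have h2 : (insert v' (insert v {w}) : Finset V) = insert w {v, v'} := by
      ext x
      simp only [Finset.mem_insert, Finset.mem_singleton]
      tauto
    rwa [h2] at h1
  obtain ⟨z, hzv, hz⟩ := h.pr _ hE1 hC1 v (by simp)
  have hzw : Pp G z w := hz w (Finset.mem_erase.2 ⟨hvw.ne.symm, by simp⟩)
  have hzv' : Pp G z v' := hz v' (Finset.mem_erase.2 ⟨hvv'.1.symm, by simp⟩)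
  have hzY : z ∉ X.erase w := fun hzY => (hvY z hzY).2 hzv.symm
  by_cases hzu : Pp G z u
  · exact (B.c4 h hv'w hv'Y hzu hzv' hzY hvY).2 hzv.symm
  · have hzne : z ≠ u := by
      rintro rfl
      exact hzv'.2 hv'u.symm
    have hzu' := not_Pp hzu hzne
    have hzPS : ¬ PS G z (X.erase w) := by
      intro h'
      rcases B.L_cases h h' with h' | h'
      · exact hzne h'
      · exact hzw.2 h'
    obtain ⟨y', hy', hzy'⟩ := not_PS hzPS hzY
    have hE2 : El G (insert z (X.erase w)) :=
      El.ins (B.E.mono (Finset.erase_subset w X)) hzu'.symm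
        (B.up.mono (Finset.erase_subset w X))
    have hE3 : El G (insert u (insert z (X.erase w))) :=
      El.ins hE2 hv'u (hv'Y.insert hzv'.symm)
    have hC3 : Cn G (insert u (insert z (X.erase w))) :=
      (hY.ins hy' hzy'.symm).ins (Finset.mem_insert_self z _) hzu'
    obtain ⟨t, -, ht⟩ := h.pr _ hE3 hC3 z (by simp)
    have htu : Pp G t u := ht u (Finset.mem_erase.2 ⟨hzne.symm, Finset.mem_insert_self u _⟩)
    have htY : PS G t (X.erase w) := by
      intro x hx
      exact ht x (Finset.mem_erase.2 ⟨fun h' => hzY (h' ▸ hx),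
        Finset.mem_insert_of_mem (Finset.mem_insert_of_mem hx)⟩)
    rcases B.L_cases h htY with h' | h'
    · exact htu.1 h'
    · exact B.bad t h' htY htu

end Bad

/-- Residue lemma, non-cut case. -/
theorem Ctx.Rnc (h : Ctx G) {X : Finset V} (hE : El G X) (hC : Cn G X) {w : V} (hw : w ∈ X)
    (hY : Cn G (X.erase w)) {u : V} (hu : PS G u X) :
    ∃ t, G.Adj t w ∧ PS G t (X.erase w) ∧ Pp G t u := by
  classical
  by_contra hcon
  push Not at hcon
  let 𝒮 : Finset (Finset V) := Finset.univ.filter fun K =>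
    X ⊆ K ∧ El G K ∧ Cn G K ∧ Cn G (K.erase w) ∧ PS G u K
  have hne : 𝒮.Nonempty := ⟨X, Finset.mem_filter.2 ⟨Finset.mem_univ X, Finset.Subset.refl X,
    hE, hC, hY, hu⟩⟩
  obtain ⟨K, hK, hmax⟩ := Finset.exists_max_image 𝒮 Finset.card hne
  obtain ⟨-, hXK, hEK, hCK, hYK, huK⟩ := Finset.mem_filter.1 hK
  have hwK : w ∈ K := hXK hw
  have hbad : ∀ t, G.Adj t w → PS G t (K.erase w) → ¬ Pp G t u :=
    fun t ht ht' => hcon t ht (ht'.mono (Finset.erase_subset_erase w hXK))
  have B : Bad G K w u := by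
    refine ⟨hEK, hCK, ?_, hwK, huK, hbad, ?_⟩
    · have h1 := Finset.card_pos.2 hYK.1
      rw [Finset.card_erase_of_mem hwK] at h1
      omega
    · intro z hzu hzK hzP hEz
      have hzw : z ≠ w := fun h' => hzK (h' ▸ hwK)
      have h1 : ¬ PS G z (K.erase w) := by
        intro h'
        refine hbad z ?_ h' hzu
        refine not_Pp (fun hp => hzP ?_) hzw
        rw [← Finset.insert_erase hwK]
        exact h'.insert hp
      obtain ⟨y, hy, hzy⟩ := not_PS h1 (fun h' => hzK (Finset.mem_of_mem_erase h'))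
      have := hmax (insert z K) (Finset.mem_filter.2 ⟨Finset.mem_univ _,
        hXK.trans (Finset.subset_insert z K), hEz,
        hCK.ins (Finset.mem_of_mem_erase hy) hzy.symm, by
          rw [Finset.erase_insert_of_ne hzw]
          exact hYK.ins hy hzy.symm, huK.insert hzu.symm⟩)
      rw [Finset.card_insert_of_notMem hzK] at this
      omega
  exact B.noncut h hYK

end theory

end Pool.Agent.H.MP_6036e3_co
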