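import Pool.Agent.H.MP_6036e3_co.Residue

/-!
Transfer of eliminable and connected sets along injections.
-/

namespace Pool.Agent.H.MP_6036e3_co

open Finset

section transfer

set_option linter.unusedSectionVars false

variable {V : Type*} [DecidableEq V] {G : SimpleGraph V}
variable {α : Type*} [DecidableEq α] {f : α → V} (hf : Function.Injective f)

include hf

lemma Pp_comap {x y : α} : Pp (G.comap f) x y ↔ Pp G (f x) (f y) := by
  unfold Pp
  rw [hf.ne_iff, SimpleGraph.comap_adj]

lemma PS_comap {u : α} {X : Finset α} : PS (G.comap f) u X ↔ PS G (f u) (X.image f) := by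
  constructor
  · intro h x hx
    obtain ⟨y, hy, rfl⟩ := Finset.mem_image.1 hx
    exact (Pp_comap hf).1 (h y hy)
  · intro h x hx
    exact (Pp_comap hf).2 (h (f x) (Finset.mem_image_of_mem f hx))

lemma El_comap {X : Finset α} (h : El (G.comap f) X) : El G (X.image f) := by
  induction h with
  | empty => rw [Finset.image_empty]; exact El.empty
  | @force A w u hw hadj hps _ ih =>
    refine El.force (w := f w) (u := f u) (Finset.mem_image_of_mem f hw) hadj ?_ ?_
    · rw [← Finset.image_erase hf]
      exact (PS_comap hf).1 hps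
    · rw [← Finset.image_erase hf]
      exact ih
  | @union A B hAB _ _ ih ih' =>
    rw [Finset.image_union]
    refine El.union ?_ ih ih'
    intro a ha b hb
    obtain ⟨a', ha', rfl⟩ := Finset.mem_image.1 ha
    obtain ⟨b', hb', rfl⟩ := Finset.mem_image.1 hb
    exact (Pp_comap hf).1 (hAB a' ha' b' hb')

lemma Cn_comap {X : Finset α} (h : Cn (G.comap f) X) : Cn G (X.image f) := by
  refine ⟨h.1.image f, ?_⟩
  intro S hS hne hSne
  obtain ⟨a, ha, b, hb, hbS, hab⟩ := h.2 (X.filter fun x => f x ∈ S) (Finset.filter_subset _ _)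
    (by
      obtain ⟨s, hs⟩ := hne
      obtain ⟨x, hx, rfl⟩ := Finset.mem_image.1 (hS hs)
      exact ⟨x, Finset.mem_filter.2 ⟨hx, hs⟩⟩)
    (by
      intro heq
      apply hSne
      refine Finset.Subset.antisymm hS ?_
      intro s hs
      obtain ⟨x, hx, rfl⟩ := Finset.mem_image.1 hs
      rw [← heq] at hx
      exact (Finset.mem_filter.1 hx).2)
  refine ⟨f a, (Finset.mem_filter.1 ha).2, f b, Finset.mem_image_of_mem f hb, ?_, hab⟩
  intro h'
  exact hbS (Finset.mem_filter.2 ⟨hb, h'⟩)

lemma Cn_of_comap {X : Finset α} (h : Cn G (X.image f)) : Cn (G.comap f) X := by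
  refine ⟨Finset.image_nonempty.1 h.1, ?_⟩
  intro S hS hne hSne
  obtain ⟨a, ha, b, hb, hbS, hab⟩ := h.2 (S.image f) (Finset.image_subset_image hS)
    (hne.image f) (by
      intro heq
      exact hSne (Finset.image_injective hf heq))
  obtain ⟨a, ha', rfl⟩ := Finset.mem_image.1 ha
  obtain ⟨b, hb', rfl⟩ := Finset.mem_image.1 hb
  refine ⟨a, ha', b, hb', ?_, hab⟩
  intro h'
  exact hbS (Finset.mem_image_of_mem f h')

end transfer

end Pool.Agent.H.MP_6036e3_co
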