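import Pool.Agent.H.MP_6036e3_co.Main

/-!
Twin reduction: from the private-neighbour property to the structure of the graph.
-/

namespace Pool.Agent.H.MP_6036e3_co

open Finset

universe u

section twin

set_option linter.unusedSectionVars false

variable {V : Type u} [Fintype V] [DecidableEq V] (G : SimpleGraph V)

/-- closed twins -/
def twinSetoid : Setoid V where
  r x y := ∀ z, Pp G x z ↔ Pp G y z
  iseqv := ⟨fun _ _ => Iff.rfl, fun h z => (h z).symm, fun h h' z => (h z).trans (h' z)⟩

/-- the type of twin classes -/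
def TQ : Type u := Quotient (twinSetoid G)

noncomputable instance : DecidableEq (TQ G) := Classical.decEq _

noncomputable instance : Fintype (TQ G) := by
  classical
  unfold TQ
  exact Fintype.ofFinite _

/-- the class of a vertex -/
def cls (x : V) : TQ G := Quotient.mk (twinSetoid G) x

/-- the representative of a class -/
noncomputable def rp (q : TQ G) : V := Quotient.out (s := twinSetoid G) q

variable {G}

lemma cls_rp (q : TQ G) : cls G (rp G q) = q := Quotient.out_eq (s := twinSetoid G) q

lemma rp_inj : Function.Injective (rp G) := by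
  intro a b hab
  rw [← cls_rp a, hab, cls_rp]

lemma rp_cls (x z : V) : Pp G (rp G (cls G x)) z ↔ Pp G x z :=
  (Quotient.mk_out (s := twinSetoid G) x) z

lemma rp_cls' (x z : V) : Pp G z (rp G (cls G x)) ↔ Pp G z x :=
  ⟨fun h => ((rp_cls x z).1 h.symm).symm, fun h => ((rp_cls x z).2 h.symm).symm⟩

lemma cls_ne_of_Pp {x y : V} (h : Pp G x y) : cls G x ≠ cls G y := by
  intro h'
  have := (rp_cls x y).2 h
  rw [h'] at this
  exact Pp_irrefl ((rp_cls y y).1 this)

/-- the reduced graph -/
noncomputable def redG (G : SimpleGraph V) : SimpleGraph (TQ G) := G.comap (rp G)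

lemma red_Pp {a b : TQ G} : Pp (redG G) a b ↔ Pp G (rp G a) (rp G b) := Pp_comap rp_inj

lemma red_Pp_cls {x y : V} : Pp (redG G) (cls G x) (cls G y) ↔ Pp G x y := by
  rw [red_Pp, rp_cls, rp_cls']

lemma red_ctx (hconn : Cn G Finset.univ)
    (hpr : ∀ W, El G W → Cn G W → ∀ w ∈ W, ∃ u, G.Adj u w ∧ PS G u (W.erase w))
    (h2 : 2 ≤ Fintype.card (TQ G)) : Ctx (redG G) := by
  have hadj : ∀ x y : V, G.Adj x y → cls G x ≠ cls G y → (redG G).Adj (cls G x) (cls G y) := by
    intro x y hxy hne
    refine not_Pp (fun hp => ?_) hne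
    exact (red_Pp_cls.1 hp).2 hxy
  have hconn' : Cn (redG G) Finset.univ := by
    obtain ⟨x, -⟩ := hconn.1
    refine ⟨⟨cls G x, Finset.mem_univ _⟩, ?_⟩
    intro S _ hne hSne
    obtain ⟨s, hs⟩ := hne
    obtain ⟨a, ha, b, -, hb, hab⟩ := hconn.2 (Finset.univ.filter fun v => cls G v ∈ S)
      (Finset.subset_univ _) ⟨rp G s, by simp [cls_rp, hs]⟩ (by
        intro heq
        apply hSne
        rw [Finset.eq_univ_iff_forall]
        intro q
        have : rp G q ∈ Finset.univ.filter fun v => cls G v ∈ S := by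
          rw [heq]
          exact Finset.mem_univ _
        simpa [cls_rp] using this)
    simp only [Finset.mem_filter, Finset.mem_univ, true_and] at ha hb
    exact ⟨cls G a, ha, cls G b, Finset.mem_univ _, hb, hadj a b hab (fun h' => hb (h' ▸ ha))⟩
  have hnb : ∀ q : TQ G, ∃ p, (redG G).Adj p q := by
    intro q
    obtain ⟨y, -, -, hy⟩ := hconn'.nbr (by rw [Finset.card_univ]; exact h2) (Finset.mem_univ q)
    exact ⟨y, hy.symm⟩
  have hpr' : ∀ W, El (redG G) W → Cn (redG G) W → ∀ w ∈ W,
      ∃ u, (redG G).Adj u w ∧ PS (redG G) u (W.erase w) := by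
    intro W hE hC w hw
    by_cases hW2 : 2 ≤ W.card
    · obtain ⟨u, huw, hu⟩ := hpr _ (El_comap rp_inj hE) (Cn_comap rp_inj hC) (rp G w)
        (Finset.mem_image_of_mem _ hw)
      rw [← Finset.image_erase rp_inj] at hu
      have hu' : PS (redG G) (cls G u) (W.erase w) := by
        intro x hx
        rw [red_Pp, rp_cls]
        exact hu _ (Finset.mem_image_of_mem _ hx)
      refine ⟨cls G u, not_Pp ?_ ?_, hu'⟩
      · rw [red_Pp, rp_cls]
        exact fun h' => h'.2 huw
      · intro h'
        obtain ⟨y, hy, hyw, hwy⟩ := hC.nbr hW2 hw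
        rw [h'] at hu'
        exact (hu' y (Finset.mem_erase.2 ⟨hyw, hy⟩)).2 hwy
    · have hW1 : W.erase w = ∅ := by
        rw [← Finset.card_eq_zero, Finset.card_erase_of_mem hw]
        omega
      rw [hW1]
      obtain ⟨u, hu⟩ := hnb w
      exact ⟨u, hu, fun x hx => absurd hx (Finset.notMem_empty x)⟩
  have hsing : ∀ q : TQ G, El (redG G) {q} := by
    intro q
    obtain ⟨u, hu⟩ := hnb q
    exact El.singleton hu
  refine ⟨hconn', h2, ?_, hpr'⟩
  intro x y hxy
  have hC : Cn (redG G) {x, y} := (Cn.sing y).ins (Finset.mem_singleton_self y) hxy.symm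
  have hC' : Cn (redG G) {y, x} := (Cn.sing x).ins (Finset.mem_singleton_self x) hxy
  -- `x` and `y` are not twins
  have hnt : ∃ z, ¬ (Pp (redG G) z x ↔ Pp (redG G) z y) := by
    by_contra hcon
    push Not at hcon
    apply hxy.ne
    have : cls G (rp G x) = cls G (rp G y) := by
      apply Quotient.sound (s := twinSetoid G)
      intro z
      have h1 := hcon (cls G z)
      rw [red_Pp, red_Pp, rp_cls, rp_cls] at h1
      exact ⟨fun h' => (h1.1 h'.symm).symm, fun h' => (h1.2 h'.symm).symm⟩
    rwa [cls_rp, cls_rp] at this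
  have hE : El (redG G) {x, y} := by
    obtain ⟨z, hz⟩ := hnt
    by_cases hzx : Pp (redG G) z x
    · have hzy : ¬ Pp (redG G) z y := fun h' => hz ⟨fun _ => h', fun _ => hzx⟩
      have hne : z ≠ y := by
        rintro rfl
        exact hzx.2 hxy.symm
      have h1 : El (redG G) {y, x} := by
        refine El.ins (hsing x) (not_Pp hzy hne) ?_
        intro v hv
        rw [Finset.mem_singleton.1 hv]
        exact hzx
      rwa [Finset.pair_comm] at h1
    · have hzy : Pp (redG G) z y := by
        by_contra h'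
        exact hz ⟨fun h => absurd h hzx, fun h => absurd h h'⟩
      have hne : z ≠ x := by
        rintro rfl
        exact hzy.2 hxy
      refine El.ins (hsing y) (not_Pp hzx hne) ?_
      intro v hv
      rw [Finset.mem_singleton.1 hv]
      exact hzy
  obtain ⟨u, hux, hu⟩ := hpr' _ hE hC x (by simp)
  exact ⟨u, hux, hu y (Finset.mem_erase.2 ⟨hxy.ne.symm, by simp⟩)⟩

/-- Structure theorem for graphs with the private-neighbour property. -/
theorem structure_of_pr (hconn : Cn G Finset.univ)
    (hpr : ∀ W, El G W → Cn G W → ∀ w ∈ W, ∃ u, G.Adj u w ∧ PS G u (W.erase w)) :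
    G = ⊤ ∨ ∃ t, 2 ≤ t ∧ ∃ c : V → Fin t × Bool, Function.Surjective c ∧
      ∀ v w, G.Adj v w ↔ v ≠ w ∧ ¬ ((c v).1 = (c w).1 ∧ (c v).2 ≠ (c w).2) := by
  classical
  by_cases h2 : 2 ≤ Fintype.card (TQ G)
  swap
  · left
    have hsub : ∀ a b : TQ G, a = b := by
      intro a b
      have : Fintype.card (TQ G) ≤ 1 := by omega
      exact Fintype.card_le_one_iff.1 this a b
    ext x y
    rw [SimpleGraph.top_adj]
    constructor
    · exact fun h => h.ne
    · intro hne
      exact not_Pp (fun hp => cls_ne_of_Pp hp (hsub _ _)) hne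
  right
  have hctx := red_ctx hconn hpr h2
  have huniq := Ctx.unique_perp _ (TQ G) (redG G) rfl hctx
  choose σ hσ using hctx.exPerp
  have hσσ : ∀ q, σ (σ q) = q := fun q => huniq (σ q) _ _ (hσ (σ q)) (hσ q).symm
  have hσP : ∀ q r, Pp (redG G) q r ↔ r = σ q := by
    intro q r
    constructor
    · intro h
      exact huniq q _ _ h (hσ q)
    · rintro rfl
      exact hσ q
  have hσne : ∀ q, σ q ≠ q := fun q => (hσ q).1.symm
  let e := Fintype.equivFin (TQ G)
  let A : Finset (TQ G) := Finset.univ.filter fun q => e q < e (σ q)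
  have memA : ∀ q, q ∈ A ↔ e q < e (σ q) := by
    intro q
    simp [A]
  have hA : ∀ q, q ∉ A ↔ σ q ∈ A := by
    intro q
    rw [memA, memA, hσσ, not_lt]
    constructor
    · intro h
      refine lt_of_le_of_ne h ?_
      intro h'
      exact hσne q (e.injective h')
    · exact le_of_lt
  let rep : TQ G → TQ G := fun q => if q ∈ A then q else σ q
  have hrep : ∀ q, rep q ∈ A := by
    intro q
    by_cases hq : q ∈ A
    · simp only [rep, if_pos hq]
      exact hq
    · simp only [rep, if_neg hq]
      exact (hA q).1 hq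
  let eA := Fintype.equivFin {q // q ∈ A}
  let c : V → Fin (Fintype.card {q // q ∈ A}) × Bool := fun v =>
    (eA ⟨rep (cls G v), hrep _⟩, decide (cls G v ∈ A))
  have hc1 : ∀ v w, (c v).1 = (c w).1 ↔ rep (cls G v) = rep (cls G w) := by
    intro v w
    simp only [c, EmbeddingLike.apply_eq_iff_eq, Subtype.mk.injEq]
  have hc2 : ∀ v w, (c v).2 ≠ (c w).2 ↔ ¬ (cls G v ∈ A ↔ cls G w ∈ A) := by
    intro v w
    simp only [c, ne_eq, decide_eq_decide]
  have hcard : 2 ≤ Fintype.card {q // q ∈ A} := by
    by_contra hcon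
    rw [Fintype.card_coe] at hcon
    have hA1 : ∀ a ∈ A, ∀ b ∈ A, a = b := by
      intro a ha b hb
      exact Finset.card_le_one.1 (by omega) a ha b hb
    have hQ : Nonempty (TQ G) := Fintype.card_pos_iff.1 (by omega)
    obtain ⟨q⟩ := hQ
    have haA := hrep q
    obtain ⟨a, ha, b, -, hb, hab⟩ := hctx.conn.2 {rep q} (Finset.subset_univ _)
      (Finset.singleton_nonempty _) (by
        intro heq
        have : σ (rep q) ∈ ({rep q} : Finset (TQ G)) := by
          rw [heq]
          exact Finset.mem_univ _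
        exact hσne _ (Finset.mem_singleton.1 this))
    rw [Finset.mem_singleton] at ha hb
    subst ha
    by_cases hbA : b ∈ A
    · exact hb (hA1 b hbA _ haA)
    · have h1 := hA1 _ ((hA b).1 hbA) _ haA
      have h2 : Pp (redG G) (rep q) b := by
        rw [hσP, ← h1, hσσ]
      exact h2.2 hab
  refine ⟨_, hcard, c, ?_, ?_⟩
  · rintro ⟨i, b⟩
    obtain ⟨⟨q, hq⟩, rfl⟩ := eA.surjective i
    cases b with
    | true =>
      refine ⟨rp G q, ?_⟩
      simp only [c, Prod.mk.injEq, EmbeddingLike.apply_eq_iff_eq, Subtype.mk.injEq, cls_rp,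
        decide_eq_true_eq]
      refine ⟨?_, hq⟩
      simp only [rep, if_pos hq]
    | false =>
      have hq' : σ q ∉ A := by
        rw [hA, hσσ]
        exact hq
      refine ⟨rp G (σ q), ?_⟩
      simp only [c, Prod.mk.injEq, EmbeddingLike.apply_eq_iff_eq, Subtype.mk.injEq, cls_rp,
        decide_eq_false_iff_not]
      refine ⟨?_, hq'⟩
      simp only [rep, if_neg hq', hσσ]
  · intro v w
    have hPp : Pp G v w ↔ (c v).1 = (c w).1 ∧ (c v).2 ≠ (c w).2 := by
      rw [hc1, hc2, ← red_Pp_cls, hσP]
      generalize cls G v = q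
      generalize cls G w = r
      constructor
      · rintro rfl
        by_cases hq : q ∈ A
        · have hq' : σ q ∉ A := by
            rw [hA, hσσ]
            exact hq
          simp only [rep, if_pos hq, if_neg hq', hσσ]
          exact ⟨trivial, fun h => hq' (h.1 hq)⟩
        · have hq' : σ q ∈ A := (hA q).1 hq
          simp only [rep, if_neg hq, if_pos hq']
          exact ⟨trivial, fun h => hq (h.2 hq')⟩
      · rintro ⟨h1, h2⟩
        by_cases hq : q ∈ A
        · have hr : r ∉ A := fun hr => h2 ⟨fun _ => hr, fun _ => hq⟩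
          simp only [rep, if_pos hq, if_neg hr] at h1
          rw [h1, hσσ]
        · have hr : r ∈ A := by
            by_contra hr
            exact h2 ⟨fun h => absurd h hq, fun h => absurd h hr⟩
          simp only [rep, if_neg hq, if_pos hr] at h1
          exact h1.symm
    rw [← hPp]
    constructor
    · intro h
      exact ⟨h.ne, fun h' => h'.2 h⟩
    · rintro ⟨h1, h2⟩
      exact not_Pp h2 h1

end twin

end Pool.Agent.H.MP_6036e3_co
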